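import Pool.Agent.Helper38.VF.Goals2

/-!
# VTF-TRC: an equivariant operator with dense range does not increase the rank
-/

set_option autoImplicit false

namespace Pool.Agent.Helper24.VF

open Pool.Agent.Helper27.VF Pool.Agent.Helper38.VF

universe u

theorem eqv_of {A : Type u} [Group A] {m n : ℕ} (T : L2 (Fin m × A) →L[ℝ] L2 (Fin n × A))
    (h3 : RtrStmt.{u})
    (hT : ∀ (h : A) (R₁ : L2 (Fin m × A) ≃ₗᵢ[ℝ] L2 (Fin m × A))
      (R₂ : L2 (Fin n × A) ≃ₗᵢ[ℝ] L2 (Fin n × A)), (∀ f z, R₁ f z = f (z.1, z.2 * h)) →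
      (∀ f z, R₂ f z = f (z.1, z.2 * h)) → ∀ f, T (R₁ f) = R₂ (T f)) : Eqv T := by
  intro h f f' hf z
  obtain ⟨R₁, hR₁⟩ := h3 A m h
  obtain ⟨R₂, hR₂⟩ := h3 A n h
  have e : f' = R₁ f := by
    apply lp.ext
    funext z
    rw [hR₁]
    exact hf z
  rw [e, hT h R₁ R₂ hR₁ hR₂ f, hR₂]

theorem eqv_comm {A : Type u} [Group A] {m n : ℕ} {T : L2 (Fin m × A) →L[ℝ] L2 (Fin n × A)}
    (hT : Eqv T) (h : A) (R₁ : L2 (Fin m × A) ≃ₗᵢ[ℝ] L2 (Fin m × A))
    (R₂ : L2 (Fin n × A) ≃ₗᵢ[ℝ] L2 (Fin n × A)) (hR₁ : ∀ f z, R₁ f z = f (z.1, z.2 * h))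
    (hR₂ : ∀ f z, R₂ f z = f (z.1, z.2 * h)) (f : L2 (Fin m × A)) : T (R₁ f) = R₂ (T f) := by
  apply lp.ext
  funext z
  rw [hR₂]
  exact hT h f (R₁ f) (fun z => hR₁ f z) z

theorem trc (h1 : Tr1Stmt.{u}) (h2 : Tr2Stmt.{u}) (h3 : RtrStmt.{u}) : TrcStmt.{u} := by
  intro A _ n k C hC hd
  classical
  have key : ∀ η : ℝ, 0 < η → (k : ℝ) * (1 - η) ≤ n := by
    intro η hη
    obtain ⟨S, hS1, hS2, hS3⟩ := h2 (L2 (Fin n × A)) (L2 (Fin k × A)) C hd k
      (fun j => (lp.single 2 (j, (1 : A)) (1 : ℝ) : L2 (Fin k × A))) η hη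
    have hcomm : ∀ (h : A) (R₁ : L2 (Fin n × A) ≃ₗᵢ[ℝ] L2 (Fin n × A))
        (R₂ : L2 (Fin k × A) ≃ₗᵢ[ℝ] L2 (Fin k × A)), (∀ f z, R₁ f z = f (z.1, z.2 * h)) →
        (∀ f z, R₂ f z = f (z.1, z.2 * h)) →
        (∀ y, S (R₂ y) = R₂ (S y)) ∧ ∀ y, C.adjoint (R₂ y) = R₁ (C.adjoint y) :=
      fun h R₁ R₂ hR₁ hR₂ => hS3 R₁ R₂ fun x => eqv_comm hC h R₁ R₂ hR₁ hR₂ x
    have hSe : Eqv S := by
      refine eqv_of S h3 fun h R₁ R₂ hR₁ hR₂ f => ?_
      obtain ⟨R₀, hR₀⟩ := h3 A n h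
      have hRR : R₁ = R₂ := by
        ext1 f
        apply lp.ext
        funext z
        rw [hR₁, hR₂]
      rw [hRR]
      exact (hcomm h R₀ R₂ hR₀ hR₂).1 f
    have hPe : Eqv (C.adjoint.comp S) := by
      refine eqv_of _ h3 fun h R₁ R₂ hR₁ hR₂ f => ?_
      have := hcomm h R₂ R₁ hR₂ hR₁
      simp only [ContinuousLinearMap.comp_apply]
      rw [this.1, this.2]
    have hCC : Eqv (C.comp C.adjoint) := by
      refine eqv_of _ h3 fun h R₁ R₂ hR₁ hR₂ f => ?_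
      obtain ⟨R₀, hR₀⟩ := h3 A n h
      simp only [ContinuousLinearMap.comp_apply]
      rw [(hcomm h R₀ R₁ hR₀ hR₁).2, eqv_comm hC h R₀ R₂ hR₀ hR₂]
    have t1 : tr' ((C.adjoint.comp S).comp C) = tr' (C.comp (C.adjoint.comp S)) :=
      h1 A k n (C.adjoint.comp S) C hPe hC
    have t2 : tr' ((C.comp C.adjoint).comp S) = tr' (S.comp (C.comp C.adjoint)) :=
      h1 A k k (C.comp C.adjoint) S hCC hSe
    have t3 : C.comp (C.adjoint.comp S) = (C.comp C.adjoint).comp S := by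
      ext1 x
      rfl
    have b1 : tr' ((C.adjoint.comp S).comp C) ≤ n := by
      unfold tr'
      have hj : ∀ j : Fin n, (((C.adjoint.comp S).comp C)
          (lp.single 2 (j, (1 : A)) (1 : ℝ) : L2 (Fin n × A))) (j, 1) ≤ 1 := by
        intro j
        have h := hS1 (lp.single 2 (j, (1 : A)) (1 : ℝ) : L2 (Fin n × A))
        rw [lp.inner_single_right, lp.norm_single (by norm_num)] at h
        simpa using h
      calc _ ≤ ∑ _j : Fin n, (1 : ℝ) := Finset.sum_le_sum fun j _ => hj j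
        _ = n := by simp
    have b2 : (k : ℝ) * (1 - η) ≤ tr' (S.comp (C.comp C.adjoint)) := by
      unfold tr'
      have hj : ∀ j : Fin k, 1 - η ≤ ((S.comp (C.comp C.adjoint))
          (lp.single 2 (j, (1 : A)) (1 : ℝ) : L2 (Fin k × A))) (j, 1) := by
        intro j
        have h := hS2 j
        rw [lp.inner_single_right, lp.norm_single (by norm_num)] at h
        simpa using h
      calc (k : ℝ) * (1 - η) = ∑ _j : Fin k, (1 - η) := by
            rw [Finset.sum_const, Finset.card_univ, Fintype.card_fin, nsmul_eq_mul]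
        _ ≤ _ := Finset.sum_le_sum fun j _ => hj j
    rw [t3, t2] at t1
    linarith
  by_contra hcon
  rw [not_le] at hcon
  have hk : (n : ℝ) + 1 ≤ k := by exact_mod_cast hcon
  have hk0 : (0 : ℝ) < (k : ℝ) + 1 := by positivity
  have h := key (1 / ((k : ℝ) + 1)) (by positivity)
  have h5 : (k : ℝ) * (1 - 1 / ((k : ℝ) + 1)) = k - k / (k + 1) := by ring
  have h6 : (k : ℝ) / (k + 1) < 1 := by
    rw [div_lt_one hk0]
    linarith
  rw [h5] at h
  linarith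

end Pool.Agent.Helper24.VF
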