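import Pool.Agent.Helper27.VF.Goals

/-!
# VF-FAC: facts on distances
-/

set_option autoImplicit false

namespace Pool.Agent.Helper24.VF

open Pool.Agent.Helper27.VF

universe u

theorem dist_smul_le {A W : Type u} [Group A] [MulAction A W] {G₀ : SimpleGraph W}
    (inv₀ : ∀ (a : A) (x y : W), G₀.Adj x y → G₀.Adj (a • x) (a • y)) (hc : G₀.Connected)
    (a : A) (x y : W) : G₀.dist (a • x) (a • y) ≤ G₀.dist x y := by
  obtain ⟨q, hq⟩ := hc.exists_walk_length_eq_dist x y
  let f : G₀ →g G₀ := ⟨fun x => a • x, fun {x y} h => inv₀ a x y h⟩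
  have h := SimpleGraph.dist_le (q.map f)
  rw [SimpleGraph.Walk.length_map, hq] at h
  exact h

theorem ball_finite {W : Type u} {G₀ : SimpleGraph W} (hc : G₀.Connected)
    (lf : ∀ x, {y | G₀.Adj x y}.Finite) (x : W) (n : ℕ) : {y | G₀.dist x y ≤ n}.Finite := by
  induction n with
  | zero =>
    refine (Set.finite_singleton x).subset ?_
    intro y hy
    have h0 : G₀.dist x y = 0 := Nat.le_zero.1 hy
    exact (hc.dist_eq_zero_iff.1 h0).symm
  | succ n ih =>
    refine (ih.union (ih.biUnion fun z _ => lf z)).subset ?_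
    intro y hy
    obtain ⟨q, hq⟩ := hc.exists_walk_length_eq_dist y x
    cases q with
    | nil =>
      left
      simp only [Set.mem_setOf_eq, SimpleGraph.dist_self]
      exact Nat.zero_le _
    | cons h q =>
      rename_i z
      right
      have hy' : G₀.dist x y ≤ n + 1 := hy
      have h1 : G₀.dist x z ≤ n := by
        have h2 := SimpleGraph.dist_le q
        rw [SimpleGraph.Walk.length_cons] at hq
        rw [SimpleGraph.dist_comm] at hy' h2
        omega
      exact Set.mem_biUnion (show z ∈ {y | G₀.dist x y ≤ n} from h1) h.symm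

theorem leave {W : Type u} {G₀ : SimpleGraph W} (hc : G₀.Connected) (U : Set W) :
    ∀ {x y : W} (q : G₀.Walk x y), x ∈ U → y ∉ U →
      ∃ b, (b ∈ U ∧ ∃ z, z ∉ U ∧ G₀.Adj b z) ∧ G₀.dist x b ≤ q.length := by
  intro x y q
  induction q with
  | nil =>
    intro h1 h2
    exact (h2 h1).elim
  | cons h q ih =>
    rename_i x z y
    intro h1 h2
    by_cases hz : z ∈ U
    · obtain ⟨b, hb, hd⟩ := ih hz h2
      refine ⟨b, hb, ?_⟩
      have h3 := hc.dist_triangle (u := x) (v := z) (w := b)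
      have h4 : G₀.dist x z ≤ 1 := by
        have := SimpleGraph.dist_le h.toWalk
        simpa using this
      rw [SimpleGraph.Walk.length_cons]
      omega
    · refine ⟨x, ⟨h1, z, hz, h⟩, ?_⟩
      rw [SimpleGraph.dist_self]
      exact Nat.zero_le _

theorem fac : FacStmt.{u} := by
  intro A W _ _ G G₀ w p hS
  have hc := hS.conn
  have hball := fun x n => ball_finite hc hS.lf x n
  have hR : ∃ R : ℕ, ∀ x : W, ∃ a : A, G₀.dist (a • w) x ≤ R := by
    obtain ⟨F, hF, hFx⟩ := hS.fin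
    obtain ⟨R, hR⟩ := (hF.image fun f => G₀.dist w f).bddAbove
    refine ⟨R, fun x => ?_⟩
    obtain ⟨a, f, hf, rfl⟩ := hFx x
    exact ⟨a, (dist_smul_le hS.inv₀ hc a w f).trans (hR ⟨f, hf, rfl⟩)⟩
  refine ⟨hR, hball, ?_⟩
  intro U hU hb
  obtain ⟨R, hR⟩ := hR
  have hN : (⋃ b ∈ {x | x ∈ U ∧ ∃ y, y ∉ U ∧ G₀.Adj x y}, {y | G₀.dist b y ≤ R}).Finite :=
    hb.biUnion fun b _ => hball b R
  have hUN := hU.diff hN
  intro hfin
  refine hUN ((hfin.biUnion fun a _ => hball (a • w) R).subset ?_)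
  rintro x ⟨hxU, hxN⟩
  obtain ⟨a, ha⟩ := hR x
  refine Set.mem_biUnion (x := a) ?_ ha
  by_contra haU
  obtain ⟨q, hq⟩ := hc.exists_walk_length_eq_dist x (a • w)
  obtain ⟨b, hbb, hbd⟩ := leave hc U q hxU haU
  apply hxN
  refine Set.mem_biUnion (x := b) hbb ?_
  show G₀.dist b x ≤ R
  have e1 : G₀.dist b x = G₀.dist x b := SimpleGraph.dist_comm
  have e2 : G₀.dist x (a • w) = G₀.dist (a • w) x := SimpleGraph.dist_comm
  rw [hq] at hbd
  omega

end Pool.Agent.Helper24.VF
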