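import Pool.Agent.Helper96.VF.Goals

/-!
# Project VF (MP_6829b3_nt), packet U1B
-/

set_option autoImplicit false

namespace Pool.Agent.Helper24.VF

open Pool.Agent.Helper96.VF

theorem gU1B (hROW : ROW) (hTILE : TILE) : U1B := by
  intro y S hy hS hR hA hlt
  obtain ⟨D, lo, hi, hD, hsep, huniq, hcard⟩ := hROW S hS
  have hy0 : y ≠ 0 := by omega
  have hcol : ∀ u ∈ S, u.1 ≤ Nat.log 2 y := fun u hu => by
    apply Nat.le_log_of_pow_le (by norm_num)
    exact (Nat.le_mul_of_pos_right _ (by positivity)).trans (hR u hu)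
  have hrow : ∀ u ∈ S, u.2 ≤ Nat.log 3 y := fun u hu => by
    apply Nat.le_log_of_pow_le (by norm_num)
    exact (Nat.le_mul_of_pos_left _ (by positivity)).trans (hR u hu)
  have h3 : 3 ^ Nat.log 3 y ≤ y := Nat.pow_log_le_self 3 hy0
  generalize Nat.log 2 y = A at hA hcol ⊢
  generalize Nat.log 3 y = B at hlt hrow h3 ⊢
  by_contra hcon
  have himg : S.image Prod.snd ⊆ Finset.range (B + 1) := by
    intro b hb
    rw [Finset.mem_image] at hb
    obtain ⟨u, hu, rfl⟩ := hb
    rw [Finset.mem_range]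
    exact Nat.lt_succ_of_le (hrow u hu)
  have himgc : (S.image Prod.snd).card ≤ B + 1 := by
    have := Finset.card_le_card himg
    rwa [Finset.card_range] at this
  have hA1 : 1 ≤ A := hA.pos
  have ht := hTILE D lo 0 (A - 1) (fun b hb b' hb' hbb => by
    have h1 := hsep b hb b' hb' hbb
    have h2 := (hD b' hb').2.2
    omega) (fun b hb => by
    have h1 := (hD b hb).2.2
    have h2 := hcol _ (hD b hb).2.1
    simp only at h2
    omega)
  obtain ⟨ht1, ht2⟩ := ht
  obtain ⟨c, hc⟩ := hA
  have hDc : 2 * D.card = A - 1 + 2 - 0 := by clear ht2; omega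
  have hBc : B + 1 ≤ (S.image Prod.snd).card := by clear ht2; omega
  have hD1 : 1 ≤ D.card := by clear ht2; omega
  have himge : S.image Prod.snd = Finset.range (B + 1) := by
    apply Finset.eq_of_subset_of_card_le himg
    rw [Finset.card_range]
    exact hBc
  obtain ⟨b, hb, hlo⟩ := (ht2 hDc).1 hD1
  clear ht2
  have hBm : B ∈ S.image Prod.snd := by
    rw [himge, Finset.mem_range]
    omega
  rw [Finset.mem_image] at hBm
  obtain ⟨⟨a, B'⟩, hu, hB'⟩ := hBm
  simp only at hB'
  subst hB'
  -- columns of the row `B`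
  have hcol0 : ∀ a, (a, B') ∈ S → a = 0 := by
    intro a ha
    by_contra hne
    have h1 := hR _ ha
    simp only at h1
    have h2 : 2 ≤ 2 ^ a := by
      calc 2 = 2 ^ 1 := rfl
        _ ≤ 2 ^ a := Nat.pow_le_pow_right (by norm_num) (by omega)
    have h4 : 2 * 3 ^ B' ≤ 2 ^ a * 3 ^ B' := Nat.mul_le_mul_right _ h2
    omega
  have ha0 := hcol0 a hu
  subst ha0
  obtain ⟨hl, hh, hlh⟩ := hD b hb
  have hbB : b ≠ B' := by
    intro h
    subst h
    have := hcol0 _ hh
    omega
  have hbB' : b ≤ B' := hrow _ hl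
  refine hS _ hl _ hh _ hu ?_ ?_ ?_ ⟨?_, ?_⟩
  · intro h
    have := congrArg Prod.fst h
    simp only at this
    omega
  · intro h
    have := congrArg Prod.snd h
    simp only at this
    omega
  · intro h
    have := congrArg Prod.snd h
    simp only at this
    omega
  · exact ⟨hlh.le, le_rfl⟩
  · exact ⟨by simp only; omega, hbB'⟩

end Pool.Agent.Helper24.VF
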